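import Pool.Agent.Helper31.NSB.St
import Pool.Agent.Helper62.UR.W1
import Pool.Agent.Helper62.UR.Sw

/-! Consequences of the common fields of case B: fullness of the coordinates, time, directions. -/

set_option autoImplicit false

namespace Pool.Agent.Helper62.HS

open Finset Filter Topology Pool.Agent.Helper69.RK Pool.Agent.Helper31.EC Pool.Agent.Helper82.TP
open Pool.Agent.Helper79.NF Pool.Agent.Helper31.NSB Pool.Agent.Helper62.UR

noncomputable section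

open Sp QS

variable {S : Sp} {H : RD S} {f : FR S} {w1 w ρ : ℝ} {Sc : Set ℝ}

/-- directions are nowhere known over the labels and the point -/
theorem rich_κ (cc : CC H f w1 w ρ Sc) {s : ℝ} (hs : s ∈ Sc) {A : S.L} (hA : A ≤ H.κ s ⊔ H.B) (T : Sp) (p : Pj T S)
    (E : ∀ k, (T.F k).Ω → Prop) (hE : 0 < ul (T.pr E)) (r : ℝ) (h0 : 0 < r) (h1 : r ≤ 1) :
    0 < h (restL E hE (p.map (dg H.x r))) (restL E hE (p.map A)) := by
  have h2 : 0 < h (restL E hE (p.map (dg H.x r))) (restL E hE (p.map H.B)) := by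
    obtain ⟨g, hg, hr⟩ := cc.rich
    exact (mul_pos hg h0).trans_le (hr T p E hE r h0.le h1)
  have h3 : I (p.map (dg H.x 1)) (p.map (H.κ s ⊔ H.B)) (p.map ⊥) = 0 := by
    rw [Pj.I_map]
    exact cc.T1 s hs
  have h4 := I_rest_zero E hE h3
  have h5 : I (restL E hE (p.map (dg H.x r))) (restL E hE (p.map A)) (restL E hE (p.map ⊥)) = 0 := by
    apply le_antisymm _ (I_nonneg _ _ _)
    rw [← h4]
    exact I_mono ((restL_mono E hE (p.map_mono (dg_mono _ h1))).trans le_sup_left)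
      ((restL_mono E hE (p.map_mono hA)).trans le_sup_left)
  rw [I_zero_iff_h] at h5
  have h6 : restL E hE (p.map A) ⊔ restL E hE (p.map ⊥) = restL E hE (p.map A) := by
    rw [← restL_sup, ← Pj.map_sup, sup_bot_eq]
  rw [h6] at h5
  rw [h5]
  exact h2.trans_le (h_anti (restL_mono E hE (p.map_mono bot_le)))

/-- digits of `t` are real over the labels and the line -/
theorem time_κ (cc : CC H f w1 w ρ Sc) {s : ℝ} (hs : s ∈ Sc) (hs1 : s ≤ 1) :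
    1 - s ≤ h (dg H.t 1) (H.κ s ⊔ (H.L ⊔ dg H.t s)) := by
  have h1 : I (dg H.t 1) (H.κ s) (H.L ⊔ dg H.t s) = 0 := by
    rw [I_comm]
    exact cc.leakA s hs
  rw [I_zero_iff_h] at h1
  rw [h1]
  have h2 := h_chain (dg H.t s) (dg H.t 1) H.L
  have e2 : dg H.t s ⊔ dg H.t 1 = dg H.t 1 := sup_eq_right.mpr (dg_mono H.t hs1)
  rw [e2, cc.time, sup_comm (dg H.t s) H.L] at h2
  have h3 := (h_le_H (dg H.t s) H.L).trans (H_dg_le H.t (cc.nn s hs))
  linarith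

/-- `t` and `L` are independent -/
theorem time_ind (cc : CC H f w1 w ρ Sc) : I (dg H.t 1) H.L ⊥ = 0 := by
  rw [I_zero_iff_h, sup_bot_eq, h_bot, cc.time]
  have h1 := H_dg_le H.t zero_le_one
  have h2 := h_le_H (dg H.t 1) H.L
  rw [cc.time] at h2
  linarith

theorem kκ (cc : CC H f w1 w ρ Sc) {s : ℝ} (hs : s ∈ Sc) {g : QS S} (hg : Lit (H.K s) g) {r : ℝ} (hr : r ≤ 1) :
    dg g r ≤ H.κ s := hg.dg_le (cc.bdd s hs) hr

theorem t_le (cc : CC H f w1 w ρ Sc) {s : ℝ} (hs : s ∈ Sc) (hs1 : s ≤ 1) : dg H.t s ≤ H.κ s := by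
  rw [dg_eq_of_sub_mem (cc.ft s hs).1 le_rfl hs1]
  exact kκ cc hs (cc.lt s hs).1 hs1

theorem y_le (cc : CC H f w1 w ρ Sc) {s : ℝ} (hs : s ∈ Sc) (hs1 : s ≤ 1) : dg H.y s ≤ H.κ s := by
  rw [dg_eq_of_sub_mem (cc.fy s hs).1 le_rfl hs1]
  exact kκ cc hs (cc.lt s hs).2 hs1

/-- digits of `R` in the box -/
theorem R_le (cc : CC H f w1 w ρ Sc) {s r : ℝ} (hs : s ∈ Sc) (hr : r ≤ w1 * s) (hr1 : r ≤ 1) :
    dg H.R r ≤ H.κ s ⊔ (dg H.t r ⊔ dg H.y r) := by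
  obtain ⟨l1, l2, l3⟩ := cc.lr s hs
  have e : ∀ {g : QS S}, Lit (H.K s) g → dg g r ≤ H.κ s ⊔ (dg H.t r ⊔ dg H.y r) := fun hg =>
    (kκ cc hs hg hr1).trans le_sup_left
  rw [dg_eq_of_sub_mem (cc.frR s hs) hr hr1]
  exact dg_add_le' _ _ hr1 (dg_add_le' _ _ hr1 (e l1) (dg_mul_le' _ _ hr1 (e l2) (le_sup_left.trans le_sup_right)))
    (dg_mul_le' _ _ hr1 (e l3) (le_sup_right.trans le_sup_right))

/-- digits of `z` in the box -/
theorem z_le (cc : CC H f w1 w ρ Sc) {s r : ℝ} (hs : s ∈ Sc) (hr : r ≤ w * s) (hr1 : r ≤ 1) :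
    dg H.z r ≤ H.κ s ⊔ (dg H.t r ⊔ dg H.y r ⊔ dg H.R r) := by
  obtain ⟨l1, l2, l3, l4⟩ := cc.lz s hs
  have e : ∀ {g : QS S}, Lit (H.K s) g → dg g r ≤ H.κ s ⊔ (dg H.t r ⊔ dg H.y r ⊔ dg H.R r) := fun hg =>
    (kκ cc hs hg hr1).trans le_sup_left
  rw [dg_eq_of_sub_mem (cc.frZ s hs) hr hr1]
  exact dg_add_le' _ _ hr1 (dg_add_le' _ _ hr1 (dg_add_le' _ _ hr1 (e l1) (dg_mul_le' _ _ hr1 (e l2)
    ((le_sup_left.trans le_sup_left).trans le_sup_right))) (dg_mul_le' _ _ hr1 (e l3)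
    ((le_sup_right.trans le_sup_left).trans le_sup_right))) (dg_mul_le' _ _ hr1 (e l4) (le_sup_right.trans le_sup_right))

theorem full_κ (cc : CC H f w1 w ρ Sc) {s : ℝ} (hs : s ∈ Sc) (hs1 : w1 * s ≤ 1) :
    3 - (2 + w1) * s ≤ h H.M (H.κ s) := by
  have h1 := cc.full s hs hs1 S (Pj.id S) (fun _ _ => True) (Sp.ul_pr_typ_pos _ Typ_true)
  rw [Pj.id_map, Pj.id_map, Sp.h_restL_typ _ Typ_true] at h1
  exact h1

theorem s_le (cc : CC H f w1 w ρ Sc) {s : ℝ} (hs : s ∈ Sc) : s ≤ w1 * s := by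
  have h1 := cc.nn s hs
  have h2 := cc.hw1
  nlinarith

/-- fullness of `R` over the base point and the label -/
theorem full_R (cc : CC H f w1 w ρ Sc) {s : ℝ} (hs : s ∈ Sc) (hs1 : w1 * s ≤ 1) :
    1 - w1 * s ≤ h (dg H.R 1) (H.q ⊔ H.κ s) := by
  have h0 := (s_le cc hs).trans hs1
  have h1 := full_κ cc hs hs1
  have e1 : H.M = H.q ⊔ dg H.R 1 := rfl
  rw [e1, h_chain] at h1
  have h2 : h H.q (H.κ s) ≤ 2 - 2 * s := by
    have e2 : H.q = dg H.t 1 ⊔ dg H.y 1 := rfl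
    rw [e2, h_chain]
    have h3 : h (dg H.t 1) (H.κ s) ≤ 1 - s := (h_anti (t_le cc hs h0)).trans (QS.h_dg_dg _ h0)
    have h4 : h (dg H.y 1) (dg H.t 1 ⊔ H.κ s) ≤ 1 - s :=
      (h_anti ((y_le cc hs h0).trans le_sup_right)).trans (QS.h_dg_dg _ h0)
    linarith
  linarith

/-- isotropic digits -/
theorem isoM (cc : CC H f w1 w ρ Sc) {s b : ℝ} (hs : s ∈ Sc) (hb : w1 * s ≤ b) (hb1 : b ≤ 1) :
    I (H.κ s) H.M (H.iso b) = 0 := by
  have h0 := s_le cc hs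
  have hs1 := hb.trans hb1
  have h1 := full_κ cc hs hs1
  have hM : H.iso b ≤ H.M := sup_le_sup (sup_le_sup (dg_mono _ hb1) (dg_mono _ hb1)) (dg_mono _ hb1)
  have e1 : h H.M (H.κ s) = h (H.iso b) (H.κ s) + h H.M (H.iso b ⊔ H.κ s) := by
    have := h_chain (H.iso b) H.M (H.κ s)
    rwa [sup_eq_right.mpr hM] at this
  have h2 : h (H.iso b) (H.κ s) ≤ (b - s) + (b - s) + (b - w1 * s) := by
    have e2 : H.iso b = (dg H.t b ⊔ dg H.y b) ⊔ dg H.R b := rfl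
    rw [e2, h_chain, h_chain]
    have h3 : h (dg H.t b) (H.κ s) ≤ b - s := (h_anti (t_le cc hs (h0.trans hs1))).trans (QS.h_dg_dg _ (h0.trans hb))
    have h4 : h (dg H.y b) (dg H.t b ⊔ H.κ s) ≤ b - s :=
      (h_anti ((y_le cc hs (h0.trans hs1)).trans le_sup_right)).trans (QS.h_dg_dg _ (h0.trans hb))
    have h5 : h (dg H.R b) (dg H.t b ⊔ dg H.y b ⊔ H.κ s) ≤ b - w1 * s := by
      refine (h_anti ?_).trans (QS.h_dg_dg H.R hb)
      refine (R_le cc hs le_rfl hs1).trans (sup_le le_sup_right (sup_le ?_ ?_))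
      · exact ((dg_mono _ hb).trans le_sup_left).trans le_sup_left
      · exact ((dg_mono _ hb).trans le_sup_right).trans le_sup_left
    linarith
  have h6 : h H.M (H.iso b) ≤ 3 * (1 - b) := by
    have e2 : H.M = (dg H.t 1 ⊔ dg H.y 1) ⊔ dg H.R 1 := rfl
    rw [e2, h_chain, h_chain]
    have h3 : h (dg H.t 1) (H.iso b) ≤ 1 - b :=
      (h_anti (le_sup_left.trans le_sup_left)).trans (QS.h_dg_dg _ hb1)
    have h4 : h (dg H.y 1) (dg H.t 1 ⊔ H.iso b) ≤ 1 - b :=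
      (h_anti ((le_sup_right.trans le_sup_left).trans le_sup_right)).trans (QS.h_dg_dg _ hb1)
    have h5 : h (dg H.R 1) (dg H.t 1 ⊔ dg H.y 1 ⊔ H.iso b) ≤ 1 - b :=
      (h_anti (le_sup_right.trans le_sup_right)).trans (QS.h_dg_dg _ hb1)
    linarith
  apply le_antisymm _ (I_nonneg _ _ _)
  rw [I_eq', sup_comm (H.κ s)]
  linarith

/-- `q` is full -/
theorem full_q0 (cc : CC H f w1 w ρ Sc) : h (dg H.y 1) (dg H.t 1) = 1 ∧ h (dg H.R 1) H.q = 1 := by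
  have h1 := full_κ cc cc.zero (by rw [mul_zero]; exact zero_le_one)
  rw [cc.κ0, mul_zero, sub_zero] at h1
  have e2 : H.M = (dg H.t 1 ⊔ dg H.y 1) ⊔ dg H.R 1 := rfl
  rw [e2, h_chain, h_chain, sup_bot_eq, sup_bot_eq] at h1
  have h3 := h_dg_le_one H.t ⊥
  have h4 := h_dg_le_one H.y (dg H.t 1)
  have h5 := h_dg_le_one H.R (dg H.t 1 ⊔ dg H.y 1)
  have e3 : H.q = dg H.t 1 ⊔ dg H.y 1 := rfl
  rw [e3]
  constructor <;> linarith

end

end Pool.Agent.Helper62.HS
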