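import Pool.Agent.Helper62.HS.Tr
import Pool.Agent.Helper72.LR.All
import Pool.Agent.Helper82.HS.Back

/-! The second corner of case B: LEMMA R, the unit, `w1 = 2`; a direct sheet if `w = w1`. -/

set_option autoImplicit false

namespace Pool.Agent.Helper62.HS

open Finset Filter Topology Pool.Agent.Helper69.RK Pool.Agent.Helper31.EC Pool.Agent.Helper82.TP
open Pool.Agent.Helper79.NF Pool.Agent.Helper31.NSB Pool.Agent.Helper62.UR Pool.Agent.Helper62.UT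
open Pool.Agent.Helper24.T3 Pool.Agent.Helper25.EC Pool.Agent.Helper72.LR

noncomputable section

open Sp QS

variable {S : Sp}

/-- LEMMA R in the truncated space: the constants live on the truncated space itself -/
theorem lemma_scl {g d : ℝ} (hg : 0 < g) (hd : 0 < d) (hd1 : d ≤ 1) (s : LSd S g d) (hy : 1 ≤ h (dg s.y 1) ⊥)
    (ht : 1 ≤ h (dg s.t 1) ⊥) : ∃ th al be : QS (scl S d hd), dg th 1 = ⊥ ∧ dg al 1 = ⊥ ∧ dg be 1 = ⊥ ∧
      qd d hd hd1 s.k0 = be + th * qd d hd hd1 s.y ∧ qd d hd hd1 s.k1 = al - th * qd d hd hd1 s.t := by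
  obtain ⟨T, p, th, al, be, zth, zal, zbe, e0, e1⟩ := lemma_rd hg hd hd1 s
  have z : ∀ {f : QS T}, dg f 1 = ⊥ → dg (qd d hd hd1 f) 1 = ⊥ := by
    intro f hf
    rw [hsc_dg1]
    apply le_bot_iff.mp
    have h1 : dg f d ≤ ⊥ := (dg_mono f hd1).trans hf.le
    exact (sclL_mono d hd h1).trans (sclL_bot d hd).le
  have full : ∀ {f : QS S}, 1 ≤ h (dg f 1) ⊥ → H (dg (qd d hd hd1 f) 1) = 1 := by
    intro f hf
    rw [hsc_dg1, H_sclL, div_eq_one_iff_eq hd.ne']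
    apply le_antisymm (H_dg_le f hd.le)
    have := h_lv f hd1 hf
    rwa [h_bot] at this
  have k0 : (pscl d hd p).qs (qd d hd hd1 s.k0) = qd d hd hd1 be + qd d hd hd1 th * (pscl d hd p).qs
      (qd d hd hd1 s.y) := by
    rw [pscl_qd, pscl_qd, ← map_mul, ← map_add]
    have := (qd_eq_zero d hd hd1).mpr e0
    rwa [map_sub, sub_eq_zero] at this
  have k1 : (pscl d hd p).qs (qd d hd hd1 s.k1) = qd d hd hd1 al + (-qd d hd hd1 th) * (pscl d hd p).qs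
      (qd d hd hd1 s.t) := by
    rw [pscl_qd, pscl_qd, ← map_neg, ← map_mul, ← map_add]
    have := (qd_eq_zero d hd hd1).mpr e1
    rw [map_sub, sub_eq_zero] at this
    rw [this]
    congr 1
    ring
  have zn : dg (-qd d hd hd1 th) 1 = ⊥ := by
    rw [← map_neg]
    apply z
    apply le_bot_iff.mp
    have : -th = 0 - th := by ring
    rw [this]
    exact dg_sub_le' _ _ le_rfl (zle (dg_of_mem_Id (r := 1) (Ideal.zero_mem _) le_rfl le_rfl) le_rfl _) zth.le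
  obtain ⟨be0, th0, b1, b2, b3, b4, b5⟩ := descend_lin (pscl d hd p) (full hy) (z zbe) (z zth) k0
  obtain ⟨al0, nt0, c1, c2, c3, c4, c5⟩ := descend_lin (pscl d hd p) (full ht) (z zal) zn k1
  have e : nt0 = -th0 := by
    apply (pscl d hd p).qs_injective
    rw [← c2, map_neg, ← b2]
  refine ⟨th0, al0, be0, b4, c3, b3, b5, ?_⟩
  rw [c5, e]
  ring

variable {H : RD S} {f : FR S} {w1 w ρ σ u r1 : ℝ} {Sc : Set ℝ}

theorem lit_VA {g : QS S} (hg : Lit H.VA g) (s : ℝ) : Lit (VAs H s) g :=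
  hg.of_fun (Eventually.of_forall fun k ω ω' _ _ _ e => by
    have h1 : (H.VA k ω, H.K s k ω) = (H.VA k ω', H.K s k ω') := e
    rw [Prod.mk.injEq] at h1
    exact h1.1)

theorem lit_VB {g : QS S} (hg : Lit H.VB g) (s : ℝ) : Lit (VBs H s) g :=
  hg.of_fun (Eventually.of_forall fun k ω ω' _ _ _ e => by
    have h1 : (H.VB k ω, H.K s k ω) = (H.VB k ω', H.K s k ω') := e
    rw [Prod.mk.injEq] at h1
    exact h1.1)

theorem lit_KA {g : QS S} {s : ℝ} (hg : Lit (H.K s) g) : Lit (VAs H s) g :=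
  hg.of_fun (Eventually.of_forall fun k ω ω' _ _ _ e => by
    have h1 : (H.VA k ω, H.K s k ω) = (H.VA k ω', H.K s k ω') := e
    rw [Prod.mk.injEq] at h1
    exact h1.2)

theorem lit_KB {g : QS S} {s : ℝ} (hg : Lit (H.K s) g) : Lit (VBs H s) g :=
  hg.of_fun (Eventually.of_forall fun k ω ω' _ _ _ e => by
    have h1 : (H.VB k ω, H.K s k ω) = (H.VB k ω', H.K s k ω') := e
    rw [Prod.mk.injEq] at h1
    exact h1.2)

/-- the agreement principle in the truncated space -/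
theorem agr_u {s s' d : ℝ} (hd : 0 < d) (hd1 : d ≤ 1) (ha : Agr H s s') (E : ∀ k, (S.F k).Ω → Prop)
    (hE : 0 < ul (S.pr E)) (gA gB : QS (scl S d hd)) (δ : ℝ) (h0 : 0 < δ) (h1 : δ ≤ 1)
    (lA : Lit (S := scl S d hd) (VAs H s) gA) (lB : Lit (S := scl S d hd) (VBs H s') gB)
    (hg : QS.rest (S := scl S d hd) E hE (gA - gB) ∈ Id ((scl S d hd).rest E) δ) :
    restL (S := scl S d hd) E hE (dg gB δ) ≤ restL (S := scl S d hd) E hE (sclL d hd (H.κ s)) := by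
  obtain ⟨a, la, rfl⟩ := lit_un d hd hd1 lA
  obtain ⟨b, lb, rfl⟩ := lit_un d hd hd1 lB
  rw [← map_sub, rest_qd] at hg
  have h2 := (qd_mem_Id (S := S.rest E) d hd hd1 h1).mp hg
  have h3 := ha E hE a b (d * δ) (mul_pos hd h0) (ur_le hd hd1 h1) la lb h2
  rw [hsc_dg d hd hd1 h1, restL_scl, restL_scl]
  exact sclL_mono (S := S.rest E) d hd h3

theorem agc_u {s' d : ℝ} (hd : 0 < d) (hd1 : d ≤ 1) (ha : Agr H 0 s') (hk : H.κ 0 = ⊥) :
    AgC (S := scl S d hd) (VBs H s') (VAs H 0) := by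
  intro E hE g g' r h0 h1 hg hg' hs
  have h2 := agr_u hd hd1 ha E hE g' g r h0 h1 (fn_lit (S := scl S d hd) hg') (fn_lit (S := scl S d hd) hg) (by
    have e : QS.rest (S := scl S d hd) E hE (g' - g) = -QS.rest (S := scl S d hd) E hE (g - g') := by
      rw [← map_neg]; congr 1; ring
    rw [e]
    exact (Id _ r).neg_mem hs)
  rw [QS.rest_dg]
  rw [hk, sclL_bot, restL_bot] at h2
  exact le_bot_iff.mp h2


/-! ### the second corner -/

theorem ht_time (ht : HT H f w1 w ρ σ u r1 Sc) : h (dg H.t 1) (dg H.x 1 ⊔ dg (H.y - H.t * H.x) 1) = 1 := by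
  apply le_antisymm (h_dg_le_one _ _)
  refine ht.cc.time.ge.trans (h_anti ?_)
  exact le_sup_left.trans le_sup_left

theorem ht_iu (ht : HT H f w1 w ρ σ u r1 Sc) : I (dg H.x 1) (dg H.t 1 ⊔ dg H.y 1) ⊥ = 0 := by
  have h1 := ht.cc.T1 0 ht.cc.zero
  exact I_zero_mono h1 le_sup_left (((le_sup_left.trans le_sup_left).trans le_sup_right).trans le_sup_left)

/-- the data of LEMMA R for `R` at a depth `d ≤ u` -/
def lsR {g d : ℝ} (ht : HT H f w1 w ρ σ u r1 Sc) (hx : Rch H.x ⊥ g) (hdu : d ≤ u) : LSd S g d where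
  t := H.t
  y := H.y
  u := H.x
  k0 := f.rt σ
  k1 := f.ry σ
  ht := ht_time ht
  iu := ht_iu ht
  hk0 := (dg_mono _ hdu).trans (HT.grd ht).1
  hk1 := (dg_mono _ hdu).trans (HT.grd ht).2
  hF := by
    have h1 := HT.vel ht
    have h2 := dg_eq_of_sub_mem h1 hdu (hdu.trans (HT.u_le ht))
    have e : f.rt σ + H.x * f.ry σ = f.rt σ + f.ry σ * H.x := by ring
    rw [e, ← h2]
    exact (dg_mono _ hdu).trans (HT.F_le ht)
  rch := hx

/-- the data of LEMMA R for `z` at a depth `d ≤ r1` -/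
def lsZ {g d : ℝ} (ht : HT H f w1 w ρ σ u r1 Sc) (hw : w = w1) (hx : Rch H.x ⊥ g) (hdr : d ≤ r1) : LSd S g d where
  t := H.t
  y := H.y
  u := H.x
  k0 := zt f σ
  k1 := zy f σ
  ht := ht_time ht
  iu := ht_iu ht
  hk0 := (dg_mono _ hdr).trans (HT.grdv ht hw).1
  hk1 := (dg_mono _ hdr).trans (HT.grdv ht hw).2
  hF := by
    have h1 := HT.velv ht hw
    have h2 := dg_eq_of_sub_mem h1 hdr (hdr.trans (HT.r1_le ht))
    have e : zt f σ + H.x * zy f σ = zt f σ + zy f σ * H.x := by ring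
    rw [e, ← h2]
    exact (dg_mono _ hdr).trans (HT.v_le ht hw)
  rch := hx

theorem full_t (ht : HT H f w1 w ρ σ u r1 Sc) : 1 ≤ h (dg H.t 1) ⊥ := ht.cc.time.ge.trans (h_anti bot_le)

theorem full_y (ht : HT H f w1 w ρ σ u r1 Sc) : 1 ≤ h (dg H.y 1) ⊥ :=
  (full_q0 ht.cc).1.ge.trans (h_anti bot_le)

theorem full_a (ht : HT H f w1 w ρ σ u r1 Sc) : 1 ≤ h (dg H.a 1) (dg H.x 1) := by
  have h1 : h (dg H.y 1) (dg H.x 1 ⊔ dg H.t 1) = h (dg H.y 1) (dg H.t 1) := by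
    have h2 := ht_iu ht
    have h3 : I (dg H.x 1) (dg H.y 1) (dg H.t 1) = 0 := by
      apply le_antisymm _ (I_nonneg _ _ _)
      have h4 : I (dg H.t 1 ⊔ dg H.y 1) (dg H.x 1) (dg H.t 1 ⊔ ⊥) ≤ I (dg H.t 1 ⊔ dg H.y 1) (dg H.x 1) ⊥ :=
        I_cond_le le_sup_left
      rw [I_comm _ _ ⊥, h2, sup_bot_eq] at h4
      rw [I_comm]
      exact (I_mono_left (le_sup_right.trans le_sup_left)).trans h4
    exact I_zero_iff_h'.mp h3
  rw [(full_q0 ht.cc).1] at h1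
  refine h1.ge.trans ?_
  have e : dg H.y 1 ≤ dg H.a 1 ⊔ (dg H.x 1 ⊔ dg H.t 1) := by
    have e1 : H.y = H.a + H.t * H.x := by
      unfold HD0.a
      ring
    have e2 : dg (H.a + H.t * H.x) 1 ≤ dg H.a 1 ⊔ (dg H.x 1 ⊔ dg H.t 1) :=
      dg_add_le' _ _ le_rfl le_sup_left (dg_mul_le' _ _ le_rfl (le_sup_right.trans le_sup_right)
        (le_sup_left.trans le_sup_right))
    rwa [← e1] at e2
  calc h (dg H.y 1) (dg H.x 1 ⊔ dg H.t 1) ≤ h (dg H.a 1 ⊔ (dg H.x 1 ⊔ dg H.t 1)) (dg H.x 1 ⊔ dg H.t 1) := h_mono e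
    _ = h (dg H.a 1) (dg H.x 1 ⊔ dg H.t 1) := h_sup_right_of_le le_rfl
    _ ≤ h (dg H.a 1) (dg H.x 1) := h_anti le_sup_left

/-- rich directions in the truncated space -/
theorem rich_d (ht : HT H f w1 w ρ σ u r1 Sc) {d : ℝ} (hd : 0 < d) (hd1 : d ≤ 1) {s : ℝ} (hs : s ∈ Sc) {A : S.L}
    (hA : A ≤ H.κ s ⊔ H.B) (T : Sp) (p : Pj T (scl S d hd)) (E : ∀ k, (T.F k).Ω → Prop) (hE : 0 < ul (T.pr E)) (r : ℝ)
    (h0 : 0 < r) (h1 : r ≤ 1) :
    0 < h (restL E hE (p.map (dg (qd d hd hd1 H.x) r))) (restL E hE (p.map (sclL d hd A))) := by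
  rw [hsc_dg d hd hd1 h1, h_pun]
  exact div_pos (rich_κ ht.cc hs hA _ (pun d hd p) E hE _ (mul_pos hd h0) (ur_le hd hd1 h1)) hd

theorem rich_bot (ht : HT H f w1 w ρ σ u r1 Sc) {d : ℝ} (hd : 0 < d) (hd1 : d ≤ 1) (T : Sp)
    (p : Pj T (scl S d hd)) (E : ∀ k, (T.F k).Ω → Prop) (hE : 0 < ul (T.pr E)) (r : ℝ) (h0 : 0 < r) (h1 : r ≤ 1) :
    0 < h (restL E hE (p.map (dg (qd d hd hd1 H.x) r))) (restL E hE (p.map ⊥)) := by
  have := rich_d ht hd hd1 ht.cc.zero (A := ⊥) bot_le T p E hE r h0 h1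
  rwa [sclL_bot] at this

/-- THE UNIT in the truncated space -/
theorem unit_d (ht : HT H f w1 w ρ σ u r1 Sc) {g d : ℝ} (hg : 0 < g) (hx : Rch H.x ⊥ g)
    (hd : 0 < d) (hdu : d ≤ u) : ∃ (hd1 : d ≤ 1) (th ti al be : QS (scl S d hd)), dg th 1 = ⊥ ∧ dg ti 1 = ⊥ ∧
      dg al 1 = ⊥ ∧ dg be 1 = ⊥ ∧ ti * th = 1 ∧ IsUnit th ∧
      qd d hd hd1 (f.rt σ) = be + th * qd d hd hd1 H.y ∧ qd d hd hd1 (f.ry σ) = al - th * qd d hd hd1 H.t ∧
      qd d hd hd1 H.F = qd d hd hd1 (f.rt σ) + qd d hd hd1 (f.ry σ) * qd d hd hd1 H.x ∧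
      qd d hd hd1 H.F = be + al * qd d hd hd1 H.x + th * qd d hd hd1 H.a := by
  have hd1 := hdu.trans (HT.u_le ht)
  obtain ⟨th, al, be, zth, zal, zbe, e0, e1⟩ := lemma_scl hg hd hd1 (lsR ht hx hdu) (full_y ht) (full_t ht)
  have e0 : qd d hd hd1 (f.rt σ) = be + th * qd d hd hd1 H.y := e0
  have e1 : qd d hd hd1 (f.ry σ) = al - th * qd d hd hd1 H.t := e1
  have eF : qd d hd hd1 H.F = qd d hd hd1 (f.rt σ) + qd d hd hd1 (f.ry σ) * qd d hd hd1 H.x := by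
    have := (qd_eq_zero d hd hd1).mpr (Id_anti hdu (HT.vel ht))
    rw [map_sub, sub_eq_zero] at this
    rw [this, map_add, map_mul]
  have ea : qd d hd hd1 H.y = qd d hd hd1 H.a + qd d hd hd1 H.t * qd d hd hd1 H.x := by
    rw [← map_mul, ← map_add]
    congr 1
    unfold HD0.a
    ring
  have ec : qd d hd hd1 H.R = qd d hd hd1 H.cR + qd d hd hd1 H.t * qd d hd hd1 H.F := by
    rw [← map_mul, ← map_add]
    congr 1
    unfold HD0.cR
    ring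
  have hs := ht.hσS
  have hσ0 := ht.hσ.le
  have hR : 1 ≤ h (dg (qd d hd hd1 H.R) 1) (dg (qd d hd hd1 H.t) 1 ⊔ dg (qd d hd hd1 H.y) 1) := by
    rw [hsc_dg1, hsc_dg1, hsc_dg1, ← sclL_sup, h_sclL, le_div_iff₀ hd, one_mul]
    have h1 := h_lv H.R hd1 (full_q0 ht.cc).2.ge
    exact h1.trans (h_anti (sup_le_sup (dg_mono _ hd1) (dg_mono _ hd1)))
  have hu : IsUnit th := unit_th ea ec eF (agc_u hd hd1 (ht.cc.agr 0 ht.cc.zero σ hs hσ0) ht.cc.κ0)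
    (lit_qd d hd hd1 (lit_VA ht.cc.lA.1 0)) (lit_qd d hd hd1 (lit_VA ht.cc.lA.2.1 0)) (lit_qd d hd hd1 (lit_VA ht.cc.lA.2.2.2.1 0))
    (lit_qd d hd hd1 (lit_VA ht.cc.lA.2.2.1 0)) (lit_qd d hd hd1 (lit_VB ht.cc.lB.1 σ)) (lit_qd d hd hd1 (lit_VB ht.cc.lB.2.1 σ))
    (lit_qd d hd hd1 (lit_VB ht.cc.lB.2.2.1 σ)) (lit_qd d hd hd1 (lit_KB (ht.cc.lr σ hs).2.1))
    (lit_qd d hd hd1 (lit_KB (ht.cc.lr σ hs).2.2)) (rich_bot ht hd hd1) hR zal zbe e0 e1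
  obtain ⟨ti, hti⟩ := hu.exists_left_inv
  have zti : dg ti 1 = ⊥ := by
    apply le_bot_iff.mp
    rw [← zth]
    exact dg_inv_le hti le_rfl
  refine ⟨hd1, th, ti, al, be, zth, zti, zal, zbe, hti, hu, e0, e1, eF, ?_⟩
  rw [eF, e0, e1, ea]
  ring


/-- literal functions of earlier labels -/
theorem lit_up (ht : HT H f w1 w ρ σ u r1 Sc) {s : ℝ} (hs : s ∈ Sc) {g : QS S} (hg : Lit (H.K s) g) :
    Lit (H.K σ) g := hg.of_fun (ht.cc.nest s hs σ ht.hσS (ht.le s hs))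

/-- `2 ≤ w1` -/
theorem ge_two (ht : HT H f w1 w ρ σ u r1 Sc) {g : ℝ} (hg : 0 < g) (hx : Rch H.x ⊥ g)
    {s : ℝ} (hs : s ∈ Sc) (hs0 : 0 < s) (hs2 : 2 * s ≤ u) (hs1 : w1 * s ≤ u) : 2 ≤ w1 := by
  obtain ⟨hd1, th, ti, al, be, zth, zti, zal, zbe, hti, hu, e0, e1, eF, eF2⟩ := unit_d ht hg hx ht.hu le_rfl
  have hd := ht.hu
  have hss : 0 < s / u := div_pos hs0 hd
  have e : u * (s / u) = s := by field_simp
  have e' : u * (w1 * (s / u)) = w1 * s := by field_simp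
  have h2s : 2 * (s / u) ≤ 1 := by
    rw [← mul_div_assoc, div_le_one hd]; exact hs2
  have h1s : s / u ≤ 1 := by linarith
  have hw1s : w1 * (s / u) ≤ 1 := by
    rw [← mul_div_assoc, div_le_one hd]; exact hs1
  have ea : qd u hd hd1 H.y = qd u hd hd1 H.a + qd u hd hd1 H.t * qd u hd hd1 H.x := by
    rw [← map_mul, ← map_add]
    congr 1
    unfold HD0.a
    ring
  have ec : qd u hd hd1 H.R = qd u hd hd1 H.cR + qd u hd hd1 H.t * qd u hd hd1 H.F := by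
    rw [← map_mul, ← map_add]
    congr 1
    unfold HD0.cR
    ring
  have hσ := ht.hσS
  have cc := ht.cc
  obtain ⟨lt0, ly0⟩ := cc.lt s hs
  have hst : w1 * s ≤ 1 := hs1.trans hd1
  have hag : FullAg (S := scl S u hd) (VAs H s) (VBs H σ) (qd u hd hd1 H.R) (sclL u hd (H.q ⊔ H.κ s))
      (w1 * (s / u)) := by
    intro gA gB δ a0 a1 la lb hAB
    have ht' : Typ (S := S) (fun _ _ => True) := Typ_true
    have k1 := agr_u hd hd1 (cc.agr s hs σ hσ (ht.le s hs)) (fun _ _ => True) (Sp.ul_pr_typ_pos _ ht') gA gB δ a0 a1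
      la lb (by
        obtain ⟨G, hG⟩ := mk_surj (gA - gB)
        rw [← hG] at hAB ⊢
        rw [QS.rest_mk, mk_mem_Id a1]
        have h4 := (mk_mem_Id a1).mp hAB
        have h5 := TR.Ag.rest (S := scl S u hd) (fun _ _ => True) (Sp.ul_pr_typ_pos _ ht') h4
        rwa [map_zero] at h5)
    have k2 : dg gB δ ≤ sclL u hd (H.κ s) :=
      (Sp.restL_le_typ (S := scl S u hd) _ ht' _ _).mp k1
    have k3 : dg gB δ ⊔ sclL u hd (H.q ⊔ H.κ s) = sclL u hd (H.q ⊔ H.κ s) :=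
      sup_eq_right.mpr (k2.trans (sclL_mono u hd le_sup_right))
    rw [k3, hsc_dg1, h_sclL, le_div_iff₀ hd]
    have k4 := full_R cc hs hst
    have k5 := h_triangle (dg H.R 1) (dg H.R u) (H.q ⊔ H.κ s)
    have k6 : h (dg H.R 1) (dg H.R u ⊔ (H.q ⊔ H.κ s)) ≤ 1 - u := (h_anti le_sup_left).trans (QS.h_dg_dg _ hd1)
    have k7 : (1 - w1 * (s / u)) * u = u - w1 * s := by field_simp
    linarith
  have mI : ∀ {g : QS S} {r r' : ℝ}, r ≤ 1 → r' = u * r → g ∈ Id S r' → qd u hd hd1 g ∈ Id (scl S u hd) r := by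
    intro g r r' hr hr' hg
    rw [qd_mem_Id u hd hd1 hr, ← hr']
    exact hg
  have htt : qd u hd hd1 H.t - qd u hd hd1 (f.t0 s) ∈ Id (scl S u hd) (s / u) := by
    rw [← map_sub]
    exact mI h1s e.symm (cc.ft s hs).1
  have hyy : qd u hd hd1 H.y - qd u hd hd1 (f.y0 s) ∈ Id (scl S u hd) (s / u) := by
    rw [← map_sub]
    exact mI h1s e.symm (cc.fy s hs).1
  have ha : 1 ≤ h (dg (qd u hd hd1 H.a) 1) (dg (qd u hd hd1 H.x) 1) := by
    rw [hsc_dg1, hsc_dg1, h_sclL, le_div_iff₀ hd, one_mul]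
    exact (h_lv H.a hd1 (full_a ht)).trans (h_anti (dg_mono _ hd1))
  have hy : 1 ≤ h (dg (qd u hd hd1 H.y) 1) ⊥ := by
    rw [hsc_dg1, ← sclL_bot, h_sclL, le_div_iff₀ hd, one_mul]
    exact h_lv H.y hd1 (full_y ht)
  have kq : ∀ {A : S.L}, A ≤ H.q ⊔ H.κ s → sclL u hd A ≤ sclL u hd (H.q ⊔ H.κ s) := fun hA => sclL_mono u hd hA
  refine w1_ge hss h2s ea ec eF hag (lit_qd u hd hd1 (lit_VA ht.cc.lA.1 s)) (lit_qd u hd hd1 (lit_VA ht.cc.lA.2.1 s))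
    (lit_qd u hd hd1 (lit_VA ht.cc.lA.2.2.2.1 s)) (lit_qd u hd hd1 (lit_VA ht.cc.lA.2.2.1 s)) (lit_qd u hd hd1 (lit_KA lt0))
    (lit_qd u hd hd1 (lit_KA ly0)) (lit_qd u hd hd1 (lit_VB ht.cc.lB.1 σ)) (lit_qd u hd hd1 (lit_VB ht.cc.lB.2.1 σ))
    (lit_qd u hd hd1 (lit_VB ht.cc.lB.2.2.1 σ)) (lit_qd u hd hd1 (lit_KB (cc.lr σ hσ).2.1))
    (lit_qd u hd hd1 (lit_KB (cc.lr σ hσ).2.2)) (lit_qd u hd hd1 (lit_KB (lit_up ht hs lt0)))
    (lit_qd u hd hd1 (lit_KB (lit_up ht hs ly0))) htt hyy ?_ ?_ ?_ ?_ (rich_bot ht hd hd1) ha hy zth zal zbe e0 e1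
  · rw [hsc_dg1]
    exact kq ((dg_mono _ hd1).trans (le_sup_left.trans le_sup_left))
  · rw [hsc_dg1]
    exact kq ((dg_mono _ hd1).trans (le_sup_right.trans le_sup_left))
  · rw [hsc_dg1]
    exact kq ((kκ cc hs lt0 hd1).trans le_sup_right)
  · rw [hsc_dg1]
    exact kq ((kκ cc hs ly0 hd1).trans le_sup_right)

/-- `w1 ≤ 2` -/
theorem le_two (ht : HT H f w1 w ρ σ u r1 Sc) {g : ℝ} (hg : 0 < g) (hx : Rch H.x ⊥ g)
    {s : ℝ} (hs : s ∈ Sc) (hs0 : 0 < s) (hs1 : w1 * s ≤ u) : w1 ≤ 2 := by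
  obtain ⟨hd1, th, ti, al, be, zth, zti, zal, zbe, hti, hu, e0, e1, eF, eF2⟩ := unit_d ht hg hx ht.hu le_rfl
  have hd := ht.hu
  have hss : 0 < s / u := div_pos hs0 hd
  have e : u * (s / u) = s := by field_simp
  have e' : u * (w1 * (s / u)) = w1 * s := by field_simp
  have hw1s : w1 * (s / u) ≤ 1 := by
    rw [← mul_div_assoc, div_le_one hd]; exact hs1
  have h1s : s / u ≤ 1 := by
    have := ht.hw1
    nlinarith
  have hst : w1 * s ≤ 1 := hs1.trans hd1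
  have hs1' : s ≤ 1 := (s_le ht.cc hs).trans hst
  have ea : qd u hd hd1 H.y = qd u hd hd1 H.a + qd u hd hd1 H.t * qd u hd hd1 H.x := by
    rw [← map_mul, ← map_add]
    congr 1
    unfold HD0.a
    ring
  have ec : qd u hd hd1 H.R = qd u hd hd1 H.cR + qd u hd hd1 H.t * qd u hd hd1 H.F := by
    rw [← map_mul, ← map_add]
    congr 1
    unfold HD0.cR
    ring
  have cc := ht.cc
  obtain ⟨lt0, ly0⟩ := cc.lt s hs
  obtain ⟨l1, l2, l3⟩ := cc.lr s hs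
  have kL : ∀ {A : S.L}, A ≤ H.L → sclL u hd A ≤ sclL u hd (H.κ s ⊔ H.L) := fun hA =>
    sclL_mono u hd (hA.trans le_sup_right)
  refine w1_le (A := sclL u hd (H.κ s ⊔ H.L)) (κ := sclL u hd (H.κ s)) (t0 := qd u hd hd1 (f.t0 s))
    (r0 := qd u hd hd1 (f.r0 s)) (rt := qd u hd hd1 (f.rt s)) (ry := qd u hd hd1 (f.ry s)) hss h1s hw1s ea ec
    (sclL_mono u hd le_sup_left) ?_ ?_ ?_ ?_ ?_ ?_ ?_ ?_ ?_ ?_ ?_ ?_ zth zal zbe hu eF2
  · rw [hsc_dg1]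
    exact kL ((dg_mono _ hd1).trans (le_sup_left.trans (le_sup_left.trans le_sup_left)))
  · rw [hsc_dg1]
    exact kL ((dg_mono _ hd1).trans (le_sup_right.trans (le_sup_left.trans le_sup_left)))
  · rw [hsc_dg1]
    exact kL ((dg_mono _ hd1).trans (le_sup_right.trans (le_sup_right.trans le_sup_left)))
  · rw [hsc_dg1]
    exact kL ((dg_mono _ hd1).trans (le_sup_left.trans (le_sup_right.trans le_sup_left)))
  · rw [hsc_dg1]
    exact sclL_mono u hd (kκ cc hs l1 hd1)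
  · rw [hsc_dg1]
    exact sclL_mono u hd (kκ cc hs l2 hd1)
  · rw [hsc_dg1]
    exact sclL_mono u hd (kκ cc hs l3 hd1)
  · rw [hsc_dg1]
    exact sclL_mono u hd (kκ cc hs lt0 hd1)
  · rw [← map_sub, qd_mem_Id u hd hd1 h1s, e]
    exact (cc.ft s hs).1
  · rw [hsc_dg1, h_sclL, le_div_iff₀ hd]
    have k4 := time_κ cc hs hs1'
    have k5 : h (dg H.t 1) (H.κ s ⊔ (H.L ⊔ dg H.t s)) ≤ h (dg H.t 1) (H.κ s ⊔ H.L) :=
      h_anti (sup_le_sup_left le_sup_left _)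
    have k6 := h_triangle (dg H.t 1) (dg H.t u) (H.κ s ⊔ H.L)
    have k7 : h (dg H.t 1) (dg H.t u ⊔ (H.κ s ⊔ H.L)) ≤ 1 - u := (h_anti le_sup_left).trans (QS.h_dg_dg _ hd1)
    have k8 : (1 - s / u) * u = u - s := by field_simp
    linarith
  · rw [← map_mul, ← map_mul, ← map_add, ← map_add, ← map_sub, qd_mem_Id u hd hd1 hw1s, e']
    exact cc.frR s hs
  · intro T p E hE r a0 a1
    refine lt_of_lt_of_le (rich_d ht hd hd1 hs (A := H.κ s ⊔ (dg H.t u ⊔ dg H.y u)) ?_ T p E hE r a0 a1)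
      (le_of_eq ?_)
    · exact sup_le_sup_left (sup_le ((dg_mono _ hd1).trans (le_sup_left.trans (le_sup_left.trans le_sup_left)))
        ((dg_mono _ hd1).trans (le_sup_right.trans (le_sup_left.trans le_sup_left)))) _
    · rw [sclL_sup, sclL_sup, hsc_dg1, hsc_dg1]


/-- `w = w1`: `z` is an affine function of `(t, y, R)` on the scale `r1`: a direct sheet -/
theorem sheet1 (ht : HT H f w1 w ρ σ u r1 Sc) (hw : w = w1) {g : ℝ} (hg : 0 < g) (hx : Rch H.x ⊥ g) :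
    OutZ H 1 r1 r1 := by
  obtain ⟨hd1, th, ti, al, be, zth, zti, zal, zbe, hti, hu, e0, e1, eF, eF2⟩ := unit_d ht hg hx ht.hr1 ht.hr
  have hd := ht.hr1
  obtain ⟨th', al', be', zth', zal', zbe', e0', e1'⟩ := lemma_scl hg hd hd1 (lsZ ht hw hx le_rfl) (full_y ht)
    (full_t ht)
  have e0' : qd r1 hd hd1 (zt f σ) = be' + th' * qd r1 hd hd1 H.y := e0'
  have e1' : qd r1 hd hd1 (zy f σ) = al' - th' * qd r1 hd hd1 H.t := e1'
  have ev : qd r1 hd hd1 H.v = qd r1 hd hd1 (zt f σ) + qd r1 hd hd1 (zy f σ) * qd r1 hd hd1 H.x := by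
    have := (qd_eq_zero r1 hd hd1).mpr (HT.velv ht hw)
    rw [map_sub, sub_eq_zero] at this
    rw [this, map_add, map_mul]
  have ea : qd r1 hd hd1 H.y = qd r1 hd hd1 H.a + qd r1 hd hd1 H.t * qd r1 hd hd1 H.x := by
    rw [← map_mul, ← map_add]
    congr 1
    unfold HD0.a
    ring
  have ec : qd r1 hd hd1 H.R = qd r1 hd hd1 H.cR + qd r1 hd hd1 H.t * qd r1 hd hd1 H.F := by
    rw [← map_mul, ← map_add]
    congr 1
    unfold HD0.cR
    ring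
  have ez : qd r1 hd hd1 H.z = qd r1 hd hd1 H.az + qd r1 hd hd1 H.t * qd r1 hd hd1 H.v := by
    rw [← map_mul, ← map_add]
    congr 1
    unfold HD0.az
    ring
  have hs := ht.hσS
  have cc := ht.cc
  have ha : 1 ≤ h (dg (qd r1 hd hd1 H.a) 1) (dg (qd r1 hd hd1 H.x) 1) := by
    rw [hsc_dg1, hsc_dg1, h_sclL, le_div_iff₀ hd, one_mul]
    exact (h_lv H.a hd1 (full_a ht)).trans (h_anti (dg_mono _ hd1))
  have hy : 1 ≤ h (dg (qd r1 hd hd1 H.y) 1) ⊥ := by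
    rw [hsc_dg1, ← sclL_bot, h_sclL, le_div_iff₀ hd, one_mul]
    exact h_lv H.y hd1 (full_y ht)
  obtain ⟨m1, m2, m3⟩ := cc.lr σ hs
  obtain ⟨n1, n2, n3, n4⟩ := cc.lz σ hs
  have qx := lit_qd r1 hd hd1 (lit_VA cc.lA.1 0)
  have qa := lit_qd r1 hd hd1 (lit_VA cc.lA.2.1 0)
  have qF := lit_qd r1 hd hd1 (lit_VA cc.lA.2.2.1 0)
  have qc := lit_qd r1 hd hd1 (lit_VA cc.lA.2.2.2.1 0)
  have qv := lit_qd r1 hd hd1 (lit_VA cc.lA.2.2.2.2.1 0)
  have qz := lit_qd r1 hd hd1 (lit_VA cc.lA.2.2.2.2.2 0)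
  obtain ⟨μ, c0, c1, c2, zμ, z0, z1, z2, e, hcp⟩ := z_lin ea ec eF ez ev
    (agc_u hd hd1 (cc.agr 0 cc.zero σ hs ht.hσ.le) cc.κ0) qx qa qc qF qz qv
    (lit_qd r1 hd hd1 (lit_VB cc.lB.1 σ)) (lit_qd r1 hd hd1 (lit_VB cc.lB.2.1 σ))
    (lit_qd r1 hd hd1 (lit_VB cc.lB.2.2.1 σ)) (lit_qd r1 hd hd1 (lit_KB m2)) (lit_qd r1 hd hd1 (lit_KB m3))
    (lit_qd r1 hd hd1 (lit_VB cc.lB.2.2.2 σ)) (lit_qd r1 hd hd1 (lit_KB (n2.add (n4.mul m2))))
    (lit_qd r1 hd hd1 (lit_KB (n3.add (n4.mul m3)))) (rich_bot ht hd hd1) ha hy zth zal zbe zth' zal' zbe' e0 e1 e0' e1'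
    hu
  obtain ⟨b1, b2, b3, b4⟩ := hcp _ (two1 (S := scl S r1 hd) (VAs H 0)) (two2 (S := scl S r1 hd) (VAs H 0))
    (lit_two qx) (lit_two qa) (lit_two qc) (lit_two qF) (lit_two qz) (lit_two qv)
  refine ⟨hd, le_rfl, hd1, ?_⟩
  have k := Pool.Agent.Helper82.HS.fresh_back r1 hd hd1 (VAs H 0) (H.iso r1) (H.κ 0) H.z ![H.t, H.y, H.R] (v := 1)
    le_rfl (D := 1) (Pj.id (scl S r1 hd)) ⊥
    (MvPolynomial.C c0 + MvPolynomial.C c1 * MvPolynomial.X 0 + MvPolynomial.C c2 * MvPolynomial.X 1 +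
      MvPolynomial.C μ * MvPolynomial.X 2) ?_ ?_ ?_ ?_
  · rw [mul_one] at k
    exact k
  · have zk : ∀ {c : QS (scl S r1 hd)}, dg c 1 = ⊥ → (MvPolynomial.C c : MvPolynomial (Fin 3) (QS (scl S r1 hd))) ∈
        PK (⊥ : (scl S r1 hd).L) := fun hc => C_mem hc.le
    exact (PK _).add_mem ((PK _).add_mem ((PK _).add_mem (zk z0) ((PK _).mul_mem (zk z1) (X_mem _ _)))
      ((PK _).mul_mem (zk z2) (X_mem _ _))) ((PK _).mul_mem (zk zμ) (X_mem _ _))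
  · have k1 : ∀ (c : QS (scl S r1 hd)) (i : Fin 3),
        (MvPolynomial.C c * MvPolynomial.X i : MvPolynomial (Fin 3) (QS (scl S r1 hd))).totalDegree ≤ 1 := fun c i =>
      (MvPolynomial.totalDegree_mul _ _).trans (by
        rw [MvPolynomial.totalDegree_C, zero_add]
        exact (MvPolynomial.totalDegree_monomial_le _ _).trans (by simp))
    refine (MvPolynomial.totalDegree_add _ _).trans (max_le ((MvPolynomial.totalDegree_add _ _).trans (max_le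
      ((MvPolynomial.totalDegree_add _ _).trans (max_le ?_ (k1 _ _))) (k1 _ _))) (k1 _ _))
    rw [MvPolynomial.totalDegree_C]
    exact Nat.zero_le _
  · rw [Pj.map_bot]
    exact I_eq' _ _ _ |>.trans (by rw [bot_sup_eq, sub_self])
  · rw [mem_Id_one, sub_eq_zero]
    have k1 := congrArg (two2 (S := scl S r1 hd) (VAs H 0)).qs e
    simp only [map_add, map_mul] at k1
    rw [← b1, ← b2, ← b3, ← b4] at k1
    refine k1.trans ?_
    simp only [map_add, map_mul, MvPolynomial.map_C, MvPolynomial.map_X, MvPolynomial.eval_C, MvPolynomial.eval_X]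
    rfl

/-- **THE SECOND CORNER IS A HEISENBERG CORNER** (or has a direct sheet) -/
theorem ht_main (ht : HT H f w1 w ρ σ u r1 Sc) : OutZ H 1 r1 r1 ∨ (w1 = 2 ∧ 2 < w ∧
    ∃ (hu : 0 < u) (hu1 : u ≤ 1) (th ti al be : QS (scl S u hu)),
      dg th 1 = ⊥ ∧ dg ti 1 = ⊥ ∧ dg al 1 = ⊥ ∧ dg be 1 = ⊥ ∧ ti * th = 1 ∧
      (hsc H.toHD0 u hu hu1).F = be + al * (hsc H.toHD0 u hu hu1).x + th * (hsc H.toHD0 u hu hu1).a) := by
  obtain ⟨g, hg, hr⟩ := ht.cc.rich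
  have hx : Rch H.x ⊥ g := (show Rch H.x H.B g from hr).anti bot_le
  rcases ht.hle.eq_or_lt with hww | hww
  · exact Or.inl (sheet1 ht hww.symm hg hx)
  right
  have hw10 : 0 < w1 := lt_trans one_pos ht.hw1
  have hu := ht.hu
  have hq : 0 < u / (2 * w1) := by positivity
  have h1 : u / (2 * w1) ≤ σ := by
    rw [div_le_iff₀ (by positivity)]
    have a1 := ht.hu1
    have a2 := ht.hσ
    nlinarith
  obtain ⟨s, hs, hs0, hs3⟩ := ht.dns 0 (u / (2 * w1)) le_rfl hq h1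
  have hs4 : w1 * s ≤ u / 2 := by
    calc w1 * s ≤ w1 * (u / (2 * w1)) := mul_le_mul_of_nonneg_left hs3.le hw10.le
      _ = u / 2 := by field_simp
  have hs5 : 2 * s ≤ u := by
    have := ht.hw1
    nlinarith
  have e2 : w1 = 2 := le_antisymm (le_two ht hg hx hs hs0 (by linarith))
    (ge_two ht hg hx hs hs0 hs5 (by linarith))
  obtain ⟨hd1, th, ti, al, be, zth, zti, zal, zbe, hti, hu', e0, e1, eF, eF2⟩ := unit_d ht hg hx ht.hu le_rfl
  refine ⟨e2, by rw [← e2]; exact hww, hu, hd1, th, ti, al, be, zth, zti, zal, zbe, hti, ?_⟩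
  rw [hsc_a]
  exact eF2


end

end Pool.Agent.Helper62.HS
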