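import Pool.Agent.Helper62.HS.Cc
import Pool.Agent.Helper62.UT.Scl
import Pool.Agent.Helper79.NF.Grd2
import Pool.Agent.Helper79.NF.Sheet

/-! The truncated corner: the data of the raw corner in the space with the unit `u`. -/

set_option autoImplicit false

namespace Pool.Agent.Helper62.HS

open Finset Filter Topology Pool.Agent.Helper69.RK Pool.Agent.Helper31.EC Pool.Agent.Helper82.TP
open Pool.Agent.Helper79.NF Pool.Agent.Helper31.NSB Pool.Agent.Helper62.UR Pool.Agent.Helper62.UT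

noncomputable section

open Sp QS

variable {S : Sp}

/-- truncated data -/
def hsc (H : HD0 S) (u : ℝ) (hu : 0 < u) (h1 : u ≤ 1) : HD0 (scl S u hu) where
  t := qd u hu h1 H.t
  x := qd u hu h1 H.x
  y := qd u hu h1 H.y
  R := qd u hu h1 H.R
  F := qd u hu h1 H.F
  z := qd u hu h1 H.z
  v := qd u hu h1 H.v
  β := fun s => H.β (u * s)
  K := fun s => H.K (u * s)

section basic

variable (H : HD0 S) (u : ℝ) (hu : 0 < u) (h1 : u ≤ 1)

theorem hsc_κ (s : ℝ) : (hsc H u hu h1).κ s = sclL u hu (H.κ (u * s)) := (sclL_io u hu _).symm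

theorem hsc_a : (hsc H u hu h1).a = qd u hu h1 H.a := by
  show qd u hu h1 H.y - qd u hu h1 H.t * qd u hu h1 H.x = qd u hu h1 (H.y - H.t * H.x)
  rw [map_sub, map_mul]

theorem hsc_cR : (hsc H u hu h1).cR = qd u hu h1 H.cR := by
  show qd u hu h1 H.R - qd u hu h1 H.t * qd u hu h1 H.F = qd u hu h1 (H.R - H.t * H.F)
  rw [map_sub, map_mul]

theorem hsc_az : (hsc H u hu h1).az = qd u hu h1 H.az := by
  show qd u hu h1 H.z - qd u hu h1 H.t * qd u hu h1 H.v = qd u hu h1 (H.z - H.t * H.v)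
  rw [map_sub, map_mul]

theorem hsc_dg {g : QS S} {r : ℝ} (hr : r ≤ 1) : dg (qd u hu h1 g) r = sclL u hu (dg g (u * r)) := qd_dg u hu h1 g hr

theorem hsc_dg1 {g : QS S} : dg (qd u hu h1 g) 1 = sclL u hu (dg g u) := by
  rw [qd_dg u hu h1 g le_rfl, mul_one]

/-- the line in the truncated space -/
def Lu : S.L := dg H.x u ⊔ dg H.a u ⊔ (dg H.F u ⊔ dg H.cR u) ⊔ (dg H.v u ⊔ dg H.az u)

theorem Lu_le (h1 : u ≤ 1) : Lu H u ≤ H.L := by
  unfold Lu HD0.L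
  exact sup_le_sup (sup_le_sup (sup_le_sup (dg_mono _ h1) (dg_mono _ h1)) (sup_le_sup (dg_mono _ h1) (dg_mono _ h1)))
    (sup_le_sup (dg_mono _ h1) (dg_mono _ h1))

theorem hsc_L : (hsc H u hu h1).L = sclL u hu (Lu H u) := by
  have e : (hsc H u hu h1).L = dg (qd u hu h1 H.x) 1 ⊔ dg (hsc H u hu h1).a 1 ⊔ (dg (qd u hu h1 H.F) 1 ⊔
      dg (hsc H u hu h1).cR 1) ⊔ (dg (qd u hu h1 H.v) 1 ⊔ dg (hsc H u hu h1).az 1) := rfl
  rw [e, hsc_a, hsc_cR, hsc_az, hsc_dg1, hsc_dg1, hsc_dg1, hsc_dg1, hsc_dg1, hsc_dg1]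
  unfold Lu
  rw [sclL_sup, sclL_sup, sclL_sup, sclL_sup, sclL_sup]

theorem hsc_L_le : (hsc H u hu h1).L ≤ sclL u hu H.L := by
  rw [hsc_L]
  exact sclL_mono u hu (Lu_le H u h1)

theorem hsc_q : (hsc H u hu h1).q = sclL u hu (dg H.t u ⊔ dg H.y u) := by
  have e : (hsc H u hu h1).q = dg (qd u hu h1 H.t) 1 ⊔ dg (qd u hu h1 H.y) 1 := rfl
  rw [e, hsc_dg1, hsc_dg1, sclL_sup]

theorem hsc_M : (hsc H u hu h1).M = sclL u hu (H.iso u) := by
  have e : (hsc H u hu h1).M = dg (qd u hu h1 H.t) 1 ⊔ dg (qd u hu h1 H.y) 1 ⊔ dg (qd u hu h1 H.R) 1 := rfl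
  rw [e, hsc_dg1, hsc_dg1, hsc_dg1]
  unfold HD0.iso
  rw [sclL_sup, sclL_sup]

theorem hsc_B_le : (hsc H u hu h1).B ≤ sclL u hu H.B := by
  have e : (hsc H u hu h1).B = dg (qd u hu h1 H.t) 1 ⊔ dg (qd u hu h1 H.y) 1 ⊔ dg (qd u hu h1 H.R) 1 ⊔
    dg (qd u hu h1 H.z) 1 := rfl
  rw [e, hsc_dg1, hsc_dg1, hsc_dg1, hsc_dg1, ← sclL_sup, ← sclL_sup, ← sclL_sup]
  exact sclL_mono u hu (sup_le_sup (sup_le_sup (sup_le_sup (dg_mono _ h1) (dg_mono _ h1)) (dg_mono _ h1))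
    (dg_mono _ h1))

theorem hsc_iso {r : ℝ} (hr : r ≤ 1) : (hsc H u hu h1).iso r = sclL u hu (H.iso (u * r)) := by
  have e : (hsc H u hu h1).iso r = dg (qd u hu h1 H.t) r ⊔ dg (qd u hu h1 H.y) r ⊔ dg (qd u hu h1 H.R) r := rfl
  rw [e, hsc_dg u hu h1 hr, hsc_dg u hu h1 hr, hsc_dg u hu h1 hr]
  unfold HD0.iso
  rw [sclL_sup, sclL_sup]

end basic

/-- levels -/
theorem ur_le {u r : ℝ} (hu : 0 < u) (h1 : u ≤ 1) (hr : r ≤ 1) : u * r ≤ 1 := by
  calc u * r ≤ u * 1 := mul_le_mul_of_nonneg_left hr hu.le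
    _ ≤ 1 := by rw [mul_one]; exact h1

theorem h_lv {S : Sp} (g : QS S) {A : S.L} {u : ℝ} (h1 : u ≤ 1) (hg : 1 ≤ h (dg g 1) A) : u ≤ h (dg g u) A := by
  have h2 := h_triangle (dg g 1) (dg g u) A
  have h3 : h (dg g 1) (dg g u ⊔ A) ≤ 1 - u := (h_anti le_sup_left).trans (QS.h_dg_dg _ h1)
  linarith

section cc

variable {H : RD S} {f : FR S} {w1 w ρ : ℝ} {Sc : Set ℝ}

/-- scales of the truncated space -/
def Scu (Sc : Set ℝ) (u σ' : ℝ) : Set ℝ := {s | 0 < s ∧ s ≤ σ' ∧ u * s ∈ Sc}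

/-- the raw corner in the truncated space -/
theorem hc0 (cc : CC H f w1 w ρ Sc) (hn : LNest H Sc) {u r1 σ' : ℝ} (hu : 0 < u) (h1 : u ≤ 1) (hr1 : 0 < r1)
    (hr : r1 ≤ u) (hw : 2 < w) (hw1 : w1 ≤ w) (hσ' : 0 < σ') (hwσ : w * σ' ≤ 1)
    (hsl : dg H.v r1 ≤ H.iso u ⊔ dg H.x u) :
    HC0 (hsc H.toHD0 u hu h1) w1 w ρ σ' (r1 / u) (Scu Sc u σ')
      (fun s => qd u hu h1 (f.r0 (u * s))) (fun s => qd u hu h1 (f.rt (u * s))) (fun s => qd u hu h1 (f.ry (u * s)))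
      (fun s => qd u hu h1 (f.z0 (u * s))) (fun s => qd u hu h1 (f.k0 (u * s))) (fun s => qd u hu h1 (f.k1 (u * s)))
      (fun s => qd u hu h1 (f.c (u * s))) := by
  have hw0 : 0 < w := by linarith
  have hw10 : 0 < w1 := lt_of_lt_of_le one_pos cc.hw1
  have lv : ∀ s ∈ Scu Sc u σ', w * s ≤ 1 ∧ w1 * s ≤ 1 ∧ s ≤ 1 := by
    intro s hs
    have a1 := hs.1
    have a2 := hs.2.1
    have a3 : w * s ≤ 1 := (mul_le_mul_of_nonneg_left a2 hw0.le).trans hwσ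
    refine ⟨a3, (mul_le_mul_of_nonneg_right hw1 a1.le).trans a3, ?_⟩
    nlinarith
  have mI : ∀ {g : QS S} {r r' : ℝ}, r ≤ 1 → r' = u * r → g ∈ Id S r' → qd u hu h1 g ∈ Id (scl S u hu) r := by
    intro g r r' hr hr' hg
    rw [qd_mem_Id u hu h1 hr, ← hr']
    exact hg
  constructor
  · intro s hs
    exact (scl_Bdd u hu).mpr (cc.bdd _ hs.2.2)
  · intro s hs s' hs' hss
    exact hn _ hs.2.2 _ hs'.2.2 (mul_le_mul_of_nonneg_left hss hu.le)
  · exact fun s hs => hs.1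
  · exact fun s hs => hs.2.1
  · -- time
    apply le_antisymm (h_dg_le_one _ _)
    rw [hsc_L]
    show 1 ≤ h (dg (qd u hu h1 H.t) 1) _
    rw [hsc_dg1, h_sclL, le_div_iff₀ hu, one_mul]
    refine h_lv _ h1 (cc.time.ge.trans (h_anti (Lu_le _ _ h1)))
  · -- leakA
    intro s hs
    obtain ⟨b1, b2, b3⟩ := lv s hs
    rw [hsc_κ, hsc_L]
    show I _ (dg (qd u hu h1 H.t) 1) (_ ⊔ dg (qd u hu h1 H.t) s) = 0
    rw [hsc_dg1, hsc_dg u hu h1 b3, ← sclL_sup, I_sclL, div_eq_zero_iff]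
    left
    have us1 := ur_le hu h1 b3
    -- `t` is independent of the line and of the label
    have k1 : I (H.κ (u * s)) (dg H.t 1) (H.L ⊔ dg H.t (u * s)) = 0 := cc.leakA _ hs.2.2
    have k2 : I H.L (dg H.t 1) (Lu H.toHD0 u ⊔ dg H.t (u * s)) = 0 := by
      have e2 : I H.L (dg H.t 1) (Lu H.toHD0 u ⊔ ⊥) = 0 := by
        apply le_antisymm _ (I_nonneg _ _ _)
        refine (I_cond_le (Lu_le _ _ h1)).trans ?_
        rw [I_comm, time_ind cc]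
      rw [sup_bot_eq, I_comm] at e2
      rw [I_comm, sup_comm]
      apply le_antisymm _ (I_nonneg _ _ _)
      exact (I_cond_le (dg_mono _ us1)).trans e2.le
    have k3 : I (H.L ⊔ H.κ (u * s)) (dg H.t 1) (Lu H.toHD0 u ⊔ dg H.t (u * s)) = 0 := by
      rw [I_chain, k2, zero_add]
      have e3 : H.L ⊔ (Lu H.toHD0 u ⊔ dg H.t (u * s)) = H.L ⊔ dg H.t (u * s) := by
        rw [← sup_assoc, sup_eq_left.mpr (Lu_le _ _ h1)]
      rw [e3]
      exact k1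
    exact I_zero_mono k3 (le_sup_right.trans le_sup_left) ((dg_mono _ h1).trans le_sup_left)
  · -- T1
    intro s hs
    show I (dg (qd u hu h1 H.x) 1) _ ⊥ = 0
    rw [hsc_dg1, hsc_κ]
    have k1 := cc.T1 _ hs.2.2
    have k2 : I (sclL u hu (dg H.x 1)) (sclL u hu (H.κ (u * s) ⊔ H.B)) (sclL u hu ⊥) = 0 := by
      rw [I_sclL, k1, zero_div]
    rw [sclL_bot, sclL_sup] at k2
    exact I_zero_mono k2 ((sclL_mono u hu (dg_mono _ h1)).trans le_sup_left)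
      ((sup_le_sup_left (hsc_B_le _ _ _ _) _).trans le_sup_left)
  · -- rich
    intro T p E hE r hr0 hr1
    show 0 < h (restL E hE (p.map (dg (qd u hu h1 H.x) r))) _
    rw [hsc_dg u hu h1 hr1]
    refine lt_of_lt_of_le ?_ (h_anti (restL_mono E hE (p.map_mono (hsc_B_le H.toHD0 u hu h1))))
    rw [h_pun]
    obtain ⟨g, hg, hrr⟩ := cc.rich
    exact div_pos ((mul_pos hg (mul_pos hu hr0)).trans_le
      (hrr _ (pun u hu p) E hE _ (mul_pos hu hr0).le (ur_le hu h1 hr1))) hu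
  · -- tc
    intro s hs
    obtain ⟨b1, b2, b3⟩ := lv s hs
    obtain ⟨c1, c2⟩ := cc.ft _ hs.2.2
    refine ⟨qd u hu h1 (f.t0 (u * s)), lit_qd u hu h1 (cc.lt _ hs.2.2).1, ?_, ?_⟩
    · show qd u hu h1 H.t - qd u hu h1 (f.t0 (u * s)) ∈ Id _ s
      rw [← map_sub]
      exact mI b3 rfl c1
    · show _ ≤ dg (qd u hu h1 H.t) s
      rw [hsc_dg1, hsc_dg u hu h1 b3]
      exact sclL_mono u hu ((dg_mono _ h1).trans c2)
  · -- isoM
    intro s hs
    obtain ⟨b1, b2, b3⟩ := lv s hs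
    rw [hsc_κ, hsc_M, hsc_iso _ _ _ _ b2, I_sclL, div_eq_zero_iff]
    left
    have e1 : u * (w1 * s) = w1 * (u * s) := by ring
    have k1 := isoM cc hs.2.2 (b := u * (w1 * s)) (by rw [e1]) (ur_le hu h1 b2)
    exact I_zero_mono k1 le_sup_left ((sup_le_sup (sup_le_sup (dg_mono _ h1) (dg_mono _ h1)) (dg_mono _ h1)).trans
      le_sup_left)
  · exact fun s hs => lit_qd u hu h1 (cc.lr _ hs.2.2).1
  · exact fun s hs => lit_qd u hu h1 (cc.lr _ hs.2.2).2.1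
  · exact fun s hs => lit_qd u hu h1 (cc.lr _ hs.2.2).2.2
  · intro s hs
    obtain ⟨b1, b2, b3⟩ := lv s hs
    have e := mI b2 (show w1 * (u * s) = u * (w1 * s) by ring) (cc.frR _ hs.2.2)
    simp only [map_sub, map_add, map_mul] at e
    exact e
  · exact fun s hs => lit_qd u hu h1 (cc.lz _ hs.2.2).1
  · exact fun s hs => lit_qd u hu h1 (cc.lz _ hs.2.2).2.1
  · exact fun s hs => lit_qd u hu h1 (cc.lz _ hs.2.2).2.2.1
  · exact fun s hs => lit_qd u hu h1 (cc.lz _ hs.2.2).2.2.2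
  · intro s hs
    obtain ⟨b1, b2, b3⟩ := lv s hs
    have e := mI b1 (show w * (u * s) = u * (w * s) by ring) (cc.frZ _ hs.2.2)
    simp only [map_sub, map_add, map_mul] at e
    exact e
  · -- uns
    intro T p E hE a b ha hab hb
    show h (restL E hE (p.map (dg (qd u hu h1 H.z) b))) (restL E hE (p.map (dg (qd u hu h1 H.z) a ⊔ _))) ≤ _
    rw [hsc_M, hsc_dg u hu h1 hb, hsc_dg u hu h1 (hab.trans hb), ← sclL_sup, h_pun, div_le_iff₀ hu]
    have k1 := cc.uns _ (pun u hu p) E hE (u * a) (u * b) (mul_nonneg hu.le ha) (mul_le_mul_of_nonneg_left hab hu.le)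
      (ur_le hu h1 hb)
    have e1 : (1 - ρ) * (b - a) * u = (1 - ρ) * (u * b - u * a) := by ring
    rw [e1]
    refine le_trans (h_anti (restL_mono _ _ (Pj.map_mono _ (sup_le_sup_left ?_ _)))) k1
    have hub : u * b ≤ u := by
      calc u * b ≤ u * 1 := mul_le_mul_of_nonneg_left hb hu.le
        _ = u := mul_one u
    exact sup_le_sup (sup_le_sup (dg_mono _ hub) (dg_mono _ hub)) (dg_mono _ hub)
  · -- slope
    show dg (qd u hu h1 H.v) (r1 / u) ≤ _ ⊔ dg (qd u hu h1 H.x) 1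
    have hr' : r1 / u ≤ 1 := by rw [div_le_one hu]; exact hr
    have e1 : u * (r1 / u) = r1 := by field_simp
    rw [hsc_dg u hu h1 hr', hsc_M, hsc_dg1, ← sclL_sup, e1]
    exact sclL_mono u hu hsl
  · exact hw
  · exact cc.hρ
  · exact hσ'
  · exact hwσ
  · exact div_pos hr1 hu
  · rw [div_le_one hu]; exact hr

end cc

end

end Pool.Agent.Helper62.HS
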